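import Pool.Agent.Helper10.CT.Main

/-!
# Derived lengths of two p-groups with the same character table

The derived length of the first group is bounded by centralizer indices in the second one.
-/

set_option autoImplicit false

open scoped commutatorElement

namespace Pool.Agent.Results.MP_969335_al.CentralizerIndexBound

theorem result (p : ℕ) (hp : p.Prime) (P₁ P₂ : Type) [Group P₁] [Group P₂] [Finite P₁]
    [Finite P₂] (h₁ : IsPGroup p P₁)
    (htab : ∃ (e : ConjClasses P₁ ≃ ConjClasses P₂)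
        (f : {χ : P₁ → ℂ | ∃ V : FDRep ℂ P₁, CategoryTheory.Simple V ∧ V.character = χ} ≃
             {ψ : P₂ → ℂ | ∃ W : FDRep ℂ P₂, CategoryTheory.Simple W ∧ W.character = ψ}),
        ∀ χ (g : P₁) (h : P₂), e (ConjClasses.mk g) = ConjClasses.mk h →
          (f χ).1 h = χ.1 g)
    (n : ℕ) (L : ℕ → Subgroup P₂) (hN : ∀ i ≤ n, (L i).Normal) (h0 : L 0 = commutator P₂)
    (hn : L n = ⊥) (hle : ∀ i < n, L (i + 1) ≤ L i) (k : ℕ → ℕ)
    (hC : ∀ i < n, ∃ C : Subgroup P₂, (∀ c ∈ C, ∀ x ∈ L i, ⁅c, x⁆ ∈ L (i + 1)) ∧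
      (((∀ a ∈ L i, ∀ b ∈ L i, ⁅a, b⁆ ∈ L (i + 1)) ∧ C.index < p ^ (2 * k i + 3)) ∨
        ∃ m : ℕ, C.index ≤ p ^ (m + 1) ∧ p * m < (p - 1) * (2 ^ (k i + 1) - 1))) :
    derivedSeries P₁ (1 + ∑ i ∈ Finset.range n, (k i + 1)) = ⊥ := by
  obtain ⟨e, f, hef⟩ := htab
  have : Fact p.Prime := ⟨hp⟩
  have := Fintype.ofFinite P₁
  have := Fintype.ofFinite P₂
  exact Pool.Agent.Helper10.CT.main h₁ e f hef L k n hN h0 hn hle hC

end Pool.Agent.Results.MP_969335_al.CentralizerIndexBound
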